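import Pool.Agent.Helper72.GP.GoalsB

/-!
Project GP (MP_c9dfb5_co), packet TRANS: rescaling of a residue class.
-/

set_option autoImplicit false

namespace Pool.Agent.Helper36.GP

open Finset Polynomial
open scoped Polynomial.Bivariate Classical
open Pool.Agent.Helper72.GP

/-- The affine map `y' ↦ c + h y'`. -/
def gg (c : Pt) (h : ℕ) (y : Pt) : Pt := (c.1 + h * y.1, c.2 + h * y.2)

/-- The inverse. -/
def ff (c : Pt) (h : ℕ) (y : Pt) : Pt := ((y.1 - c.1) / h, (y.2 - c.2) / h)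

theorem gg_inj (c : Pt) (h : ℕ) (hh : 1 ≤ h) : Function.Injective (gg c h) := by
  intro y z hyz
  have h0 : (h : ℤ) ≠ 0 := by positivity
  have h1 := congrArg Prod.fst hyz
  have h2 := congrArg Prod.snd hyz
  simp only [gg] at h1 h2
  apply Prod.ext
  · exact mul_left_cancel₀ h0 (by linarith)
  · exact mul_left_cancel₀ h0 (by linarith)

theorem ff_gg (c : Pt) (h : ℕ) (hh : 1 ≤ h) (y : Pt) : ff c h (gg c h y) = y := by
  have h0 : (h : ℤ) ≠ 0 := by positivity
  simp only [ff, gg, add_sub_cancel_left]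
  rw [Int.mul_ediv_cancel_left _ h0, Int.mul_ediv_cancel_left _ h0]

theorem gg_ff (c : Pt) (h : ℕ) (y : Pt) (h1 : (h : ℤ) ∣ y.1 - c.1) (h2 : (h : ℤ) ∣ y.2 - c.2) :
    gg c h (ff c h y) = y := by
  simp only [ff, gg]
  rw [Int.mul_ediv_cancel' h1, Int.mul_ediv_cancel' h2]
  simp

theorem gd_gg (c : Pt) (h : ℕ) (y z : Pt) : gd (gg c h y) (gg c h z) = h * gd y z := by
  simp only [gd, gg]
  rw [show c.1 + (h : ℤ) * y.1 - (c.1 + h * z.1) = h * (y.1 - z.1) by ring,
    show c.2 + (h : ℤ) * y.2 - (c.2 + h * z.2) = h * (y.2 - z.2) by ring,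
    Int.gcd_mul_left, Int.natAbs_natCast]

theorem col_gg (c : Pt) (h : ℕ) (hh : 1 ≤ h) (x y z : Pt) :
    Col (gg c h x) (gg c h y) (gg c h z) ↔ Col x y z := by
  have h0 : ((h : ℤ) * h) ≠ 0 := by positivity
  simp only [Col, gg]
  rw [show (c.1 + (h : ℤ) * y.1 - (c.1 + h * x.1)) * (c.2 + h * z.2 - (c.2 + h * x.2)) =
      h * h * ((y.1 - x.1) * (z.2 - x.2)) by ring,
    show (c.2 + (h : ℤ) * y.2 - (c.2 + h * x.2)) * (c.1 + h * z.1 - (c.1 + h * x.1)) =
      h * h * ((y.2 - x.2) * (z.1 - x.1)) by ring]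
  exact mul_right_inj' h0

theorem dvd_gd (h : ℕ) (x y : Pt) : h ∣ gd x y ↔ (h : ℤ) ∣ x.1 - y.1 ∧ (h : ℤ) ∣ x.2 - y.2 := by
  unfold gd
  rw [← Int.natCast_dvd_natCast]
  exact Int.dvd_coe_gcd_iff

theorem trans : TRANS := by
  intro P N h x hBox hh hx
  have hZ : (0 : ℤ) < h := by positivity
  set c : Pt := (x.1 % h, x.2 % h) with hc
  have hcx1 : (h : ℤ) ∣ x.1 - c.1 := by
    rw [hc]
    exact Int.dvd_self_sub_emod
  have hcx2 : (h : ℤ) ∣ x.2 - c.2 := by
    rw [hc]
    exact Int.dvd_self_sub_emod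
  have hc0 : 0 ≤ c.1 ∧ c.1 < h ∧ 0 ≤ c.2 ∧ c.2 < h :=
    ⟨Int.emod_nonneg _ hZ.ne', Int.emod_lt_of_pos _ hZ, Int.emod_nonneg _ hZ.ne',
      Int.emod_lt_of_pos _ hZ⟩
  have hmem : ∀ y, y ∈ cls P h x ↔ y ∈ P ∧ h ∣ gd x y := by
    intro y
    unfold cls
    rw [Finset.mem_filter]
  have hdv : ∀ y ∈ cls P h x, (h : ℤ) ∣ y.1 - c.1 ∧ (h : ℤ) ∣ y.2 - c.2 := by
    intro y hy
    obtain ⟨h1, h2⟩ := (dvd_gd h x y).mp ((hmem y).mp hy).2
    refine ⟨?_, ?_⟩
    · have := dvd_sub hcx1 h1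
      rwa [show x.1 - c.1 - (x.1 - y.1) = y.1 - c.1 by ring] at this
    · have := dvd_sub hcx2 h2
      rwa [show x.2 - c.2 - (x.2 - y.2) = y.2 - c.2 by ring] at this
  have hgf : ∀ y ∈ cls P h x, gg c h (ff c h y) = y := fun y hy =>
    gg_ff c h y (hdv y hy).1 (hdv y hy).2
  set Q : Finset Pt := (cls P h x).image (ff c h) with hQ
  have hQg : Q.image (gg c h) = cls P h x := by
    rw [hQ, Finset.image_image]
    ext y
    rw [Finset.mem_image]
    constructor
    · rintro ⟨z, hz, rfl⟩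
      simp only [Function.comp_apply]
      rw [hgf z hz]
      exact hz
    · intro hy
      exact ⟨y, hy, hgf y hy⟩
  have hinj := gg_inj c h hh
  have hcard : Q.card = (cls P h x).card := by
    rw [← hQg, Finset.card_image_of_injective _ hinj]
  have hQP : ∀ y ∈ Q, gg c h y ∈ cls P h x := by
    intro y hy
    rw [← hQg]
    exact Finset.mem_image_of_mem _ hy
  have hQP' : ∀ y ∈ Q, gg c h y ∈ P := fun y hy => ((hmem _).mp (hQP y hy)).1
  refine ⟨Q, hcard, ?_, ?_, ?_, ?_⟩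
  · -- Box
    intro p hp
    obtain ⟨b1, b2, b3, b4⟩ := hBox _ (hQP' p hp)
    simp only [gg] at b1 b2 b3 b4
    have key : ∀ (a k : ℤ), 0 ≤ a → a < h → 0 ≤ a + h * k → a + h * k ≤ N →
        0 ≤ k ∧ k ≤ ((N / h : ℕ) : ℤ) := by
      intro a k ha1 ha2 hk1 hk2
      refine ⟨?_, ?_⟩
      · by_contra hneg
        push Not at hneg
        have : (h : ℤ) * k ≤ h * (-1) := mul_le_mul_of_nonneg_left (by linarith) hZ.le
        linarith
      · rw [Int.natCast_div]
        apply (Int.le_ediv_iff_mul_le hZ).mpr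
        linarith
    have k1 := key c.1 p.1 hc0.1 hc0.2.1 b1 b2
    have k2 := key c.2 p.2 hc0.2.2.1 hc0.2.2.2 b3 b4
    exact ⟨k1.1, k1.2, k2.1, k2.2⟩
  · -- Thin
    intro t hT a ha b hb hab
    refine le_trans ?_ (hT _ (hQP' a ha) _ (hQP' b hb) (fun e => hab (hinj e)))
    rw [← Finset.card_image_of_injective (Q.filter (fun z => Col a b z)) hinj]
    apply Finset.card_le_card
    intro y hy
    rw [Finset.mem_image] at hy
    obtain ⟨z, hz, rfl⟩ := hy
    rw [Finset.mem_filter] at hz ⊢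
    exact ⟨hQP' z hz.1, (col_gg c h hh a b z).mpr hz.2⟩
  · -- general position
    rintro r ⟨S, hSQ, hgp, hr⟩
    refine ⟨S.image (gg c h), ?_, ?_, ?_⟩
    · intro y hy
      obtain ⟨z, hz, rfl⟩ := Finset.mem_image.mp hy
      exact hQP' z (hSQ hz)
    · intro x1 hx1 y1 hy1 z1 hz1 hxy hyz hxz hcol
      obtain ⟨x2, hx2, rfl⟩ := Finset.mem_image.mp hx1
      obtain ⟨y2, hy2, rfl⟩ := Finset.mem_image.mp hy1
      obtain ⟨z2, hz2, rfl⟩ := Finset.mem_image.mp hz1
      exact hgp x2 hx2 y2 hy2 z2 hz2 (fun e => hxy (by rw [e])) (fun e => hyz (by rw [e]))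
        (fun e => hxz (by rw [e])) ((col_gg c h hh _ _ _).mp hcol)
    · rw [Finset.card_image_of_injective _ hinj]
      exact hr
  · -- the sums
    intro mu hfree
    unfold FreeC at hfree
    unfold FreeAt
    have hcl : ∀ (q : ℕ), ∀ y ∈ Q, cls P (h * q) (gg c h y) =
        (Q.filter (fun z => q ∣ gd y z)).image (gg c h) := by
      intro q y hy
      ext w
      rw [Finset.mem_image]
      constructor
      · intro hw
        unfold cls at hw
        rw [Finset.mem_filter] at hw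
        obtain ⟨hwP, hwd⟩ := hw
        have h1 : h ∣ gd (gg c h y) w := dvd_trans (dvd_mul_right h q) hwd
        have h2 := ((hmem _).mp (hQP y hy)).2
        rw [dvd_gd] at h1 h2
        have h3 : w ∈ cls P h x := by
          rw [hmem, dvd_gd]
          refine ⟨hwP, ?_, ?_⟩
          · have := dvd_add h2.1 h1.1
            rwa [sub_add_sub_cancel] at this
          · have := dvd_add h2.2 h1.2
            rwa [sub_add_sub_cancel] at this
        rw [← hQg] at h3
        obtain ⟨z, hz, rfl⟩ := Finset.mem_image.mp h3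
        refine ⟨z, ?_, rfl⟩
        rw [Finset.mem_filter]
        refine ⟨hz, ?_⟩
        rw [gd_gg] at hwd
        exact Nat.dvd_of_mul_dvd_mul_left hh hwd
      · rintro ⟨z, hz, rfl⟩
        rw [Finset.mem_filter] at hz
        unfold cls
        rw [Finset.mem_filter]
        refine ⟨hQP' z hz.1, ?_⟩
        rw [gd_gg]
        exact Nat.mul_dvd_mul_left h hz.2
    have hcardq : ∀ (q : ℕ), ∀ y ∈ Q, ((cls P (h * q) (gg c h y)).card : ℝ) - 1 =
        ((Q.filter (fun z => z ≠ y ∧ q ∣ gd y z)).card : ℝ) := by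
      intro q y hy
      rw [hcl q y hy, Finset.card_image_of_injective _ hinj]
      have hy' : y ∈ Q.filter (fun z => q ∣ gd y z) := by
        rw [Finset.mem_filter]
        refine ⟨hy, ?_⟩
        unfold gd
        simp
      have e : Q.filter (fun z => z ≠ y ∧ q ∣ gd y z) = (Q.filter (fun z => q ∣ gd y z)).erase y := by
        ext z
        rw [Finset.mem_erase, Finset.mem_filter, Finset.mem_filter]
        tauto
      rw [e, Finset.card_erase_of_mem hy']
      have hpos : 1 ≤ (Q.filter (fun z => q ∣ gd y z)).card := Finset.card_pos.mpr ⟨y, hy'⟩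
      rw [Nat.cast_sub hpos, Nat.cast_one]
    rw [hcard] at hfree
    refine le_trans (le_of_eq ?_) hfree
    rw [← hQg, Finset.sum_image (fun a _ b _ hab => hinj hab), hQg]
    apply Finset.sum_congr rfl
    intro y hy
    apply Finset.sum_congr rfl
    intro q _
    unfold rr
    rw [hcardq q y hy]

end Pool.Agent.Helper36.GP
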